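import Pool.Agent.W957.MF.Final

/-!
# Long simple permutations contain short permutations with large Möbius function

A uniform form of the theorem that the principal Möbius function is unbounded on every hereditary
class of permutations with infinitely many simple permutations. The definitions `Contained`, `mu`
and `IsSimple` are in `Pool/Agent/W957/MF/Defs.lean`.
-/

set_option autoImplicit false
set_option maxHeartbeats 400000

namespace Pool.Agent.Results.MP_080fe7_co.UniformWitness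

open Pool.Agent.W957.MF Finset Pool.Agent.W585.MF

lemma occ_of_contained {z : Conf} {S : Finset ℕ} {k n : ℕ} {σ : Equiv.Perm (Fin k)}
    {π : Equiv.Perm (Fin n)} (h : Contained σ π) (ho : Occ z S π) : Occ z S σ := by
  obtain ⟨g, hg1, hg2⟩ := h
  obtain ⟨f, hf, h1, h2⟩ := ho
  refine ⟨fun i => f (g i), fun i => hf _, fun i j => ?_, fun i j => ?_⟩
  · rw [← h1]
    exact hg1.lt_iff_lt.symm
  · rw [hg2, h2]

lemma occ_card {z : Conf} {S : Finset ℕ} {k : ℕ} {σ : Equiv.Perm (Fin k)} (ho : Occ z S σ) :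
    k ≤ S.card := by
  obtain ⟨f, hf, h1, _⟩ := ho
  have hinj : Function.Injective f := by
    intro i j hij
    by_contra hne
    rcases lt_or_gt_of_ne hne with h | h
    · have := (h1 i j).1 h
      rw [hij] at this
      exact lt_irrefl _ this
    · have := (h1 j i).1 h
      rw [hij] at this
      exact lt_irrefl _ this
  have h2 := Finset.card_le_card_of_injOn (s := Finset.univ) (t := S) f (fun i _ => hf i)
    hinj.injOn
  simpa using h2

/-- long pin sequences contain patterns with large Möbius function -/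
lemma pins_uniform (h2 : S_PINS) (B : ℕ) : ∃ k : ℕ, ∀ (z : Conf) (Q : ℕ → Bool → Bool)
    (e : ℕ → Bool), Pin z k Q e → ∃ (m : ℕ) (σ : Equiv.Perm (Fin m)), 1 ≤ m ∧
      Occ z (Icc 1 k) σ ∧ (B : ℤ) < |mu m σ| := by
  by_contra hcon
  push Not at hcon
  choose z Q e hpin hb using hcon
  let C : ∀ n : ℕ, Equiv.Perm (Fin n) → Prop := fun n π => ∃ k, Occ (z k) (Icc 1 k) π
  have hher : Her C := by
    rintro k n σ π h ⟨j, hj⟩
    exact ⟨j, occ_of_contained h hj⟩
  have hbdd : Bdd C B := by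
    rintro n π hn ⟨j, hj⟩
    exact hb j n π hn hj
  exact h2 C B hher hbdd fun n => ⟨z n, Q n, e n, hpin n, fun k σ h => ⟨n, h⟩⟩

lemma main' (h1 : S_STR) (h2 : S_PINS) (h3 : S_TOPIN) (h4 : S_PA) (h5 : S_W1) (h6 : S_W2)
    (h7 : S_SYM) (c : ℤ) : ∃ L : ℕ, ∀ (n : ℕ) (σ : Equiv.Perm (Fin n)), L ≤ n → IsSimple σ →
      ∃ (k : ℕ) (π : Equiv.Perm (Fin k)), 1 ≤ k ∧ k ≤ L ∧ Contained π σ ∧ c < |mu k π| := by
  obtain ⟨b, hb⟩ : ∃ b : ℕ, c ≤ b := ⟨c.toNat, Int.self_le_toNat c⟩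
  obtain ⟨k, hk⟩ := pins_uniform h2 b
  set t := max 2 (b + 1) with ht
  have ht2 : 2 ≤ t := le_max_left _ _
  have htb : b + 1 ≤ t := le_max_right _ _
  obtain ⟨M, hM⟩ := h1 k t
  refine ⟨max M (max k (2 * t + 2)), fun n π hn hsim => ?_⟩
  have hnM : M ≤ n := (le_max_left _ _).trans hn
  have hL1 : k ≤ max M (max k (2 * t + 2)) := (le_max_left _ _).trans (le_max_right _ _)
  have hL2 : 2 * t + 2 ≤ max M (max k (2 * t + 2)) := (le_max_right _ _).trans (le_max_right _ _)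
  have hG := zp_gp π
  have fin : ∀ (m : ℕ) (σ' : Equiv.Perm (Fin m)) (a s1 s2 : Bool), 1 ≤ m → m ≤ 2 * t + 2 →
      Occ (symm a s1 s2 (zp π)) (range n) σ' → (t : ℤ) ≤ |mu m σ'| →
      ∃ (k' : ℕ) (π' : Equiv.Perm (Fin k')), 1 ≤ k' ∧ k' ≤ max M (max k (2 * t + 2)) ∧
        Contained π' π ∧ c < |mu k' π'| := by
    intro m σ' a s1 s2 hm hm2 ho hmu
    obtain ⟨σ, hσ, hσ2⟩ := h7 a s1 s2 (zp π) (range n) m σ' hG ho
    refine ⟨m, σ, hm, hm2.trans hL2, zp_occ π σ hσ, ?_⟩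
    rw [hσ2]
    have h9 : ((b : ℤ) + 1) ≤ t := by exact_mod_cast htb
    linarith
  rcases hM (zp π) (range n) hG (zp_simple π hsim) (by simpa using hnM) with h | h | h | h
  · obtain ⟨z', Q, e, hpin, ho⟩ := h3 _ _ _ hG h
    obtain ⟨m, σ, hm, hoc, hmu⟩ := hk z' Q e hpin
    have hcard := occ_card hoc
    rw [Nat.card_Icc, Nat.add_sub_cancel] at hcard
    exact ⟨m, σ, hm, hcard.trans hL1, zp_occ π σ (ho m σ hoc), lt_of_le_of_lt hb hmu⟩
  · obtain ⟨a, s1, s2, u, hu, hpa⟩ := h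
    obtain ⟨σ', ho, hmu⟩ := h4 _ t ht2 hpa
    refine fin _ σ' a s1 s2 (by omega) (by omega) (occ_pull (fun i hi => hu i ?_) ho) hmu
    rw [mem_Icc] at hi
    omega
  · obtain ⟨a, s1, s2, u, hu, hpa⟩ := h
    obtain ⟨σ', ho, hmu⟩ := h5 _ t ht2 hpa
    refine fin _ σ' a s1 s2 (by omega) (by omega) (occ_pull (fun i hi => hu i ?_) ho) hmu
    rw [mem_Icc] at hi
    omega
  · obtain ⟨a, s1, s2, u, hu, hpa⟩ := h
    obtain ⟨σ', ho, hmu⟩ := h6 _ t ht2 hpa
    refine fin _ σ' a s1 s2 (by omega) (by omega) (occ_pull (fun i hi => hu i ?_) ho) hmu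
    rw [mem_Icc] at hi
    omega

lemma witness (c : ℤ) : ∃ L : ℕ, ∀ (n : ℕ) (σ : Equiv.Perm (Fin n)), L ≤ n → IsSimple σ →
    ∃ (k : ℕ) (π : Equiv.Perm (Fin k)), 1 ≤ k ∧ k ≤ L ∧ Contained π σ ∧ c < |mu k π| := by
  have hpat : S_PAT := _root_.W237.MF.t_PAT
  have hW : S_W := _root_.W237.MF.t_W hpat
  have hpinf : S_PINF := _root_.W237.MF.Pinf.t_PINF
  have hs7 : S_SIMP7 := Pool.Agent.W239.MFB.t_SIMP7 hpinf
  have hb7 : S_BORDER7 := Pool.Agent.W239.MFB.t_BORDER7 hpinf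
  have hcode : S_CODE := _root_.W237.MF.Pinf.t_CODE
  have hswap : S_SWAP := _root_.W237.MF.Pinf.t_SWAP
  have hsym : S_SYM := _root_.W237.MF.Sym.t_SYM
  have hnfq : S_NFQ := Pool.Agent.W369.MF.t_NFQ
  have hnf : S_NF := Pool.Agent.W310.MFnf.t_NF hnfq
  have hap : S_AP := Pool.Agent.W310.MFnf.t_AP hnfq
  have hapc : S_APC := Pool.Agent.W310.MFnf.t_APC
  have hU : S_U := Pool.Agent.W991.MF.t_U hpinf
  have hpin : S_PIN := Pool.Agent.W154.MF.t_PIN hU
  have hcnt : S_CNT := Pool.Agent.W59.MF.t_CNT hW hpin hnf hpat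
  have hwords : S_WORDS := Pool.Agent.W59.MF.t_WORDS
  have hchain : S_CHAIN := Pool.Agent.W362.MFChain.t_CHAIN
  have htopin : S_TOPIN := Pool.Agent.W362.MFChain.t_TOPIN
  have hafp : S_AFP := Pool.Agent.W874.MFAFP.t_AFP hchain
  have hes : S_ES := Pool.Agent.W742.MF.t_ES
  have htip : S_TIP := Pool.Agent.W397.MF.t_TIP hchain
  have hsubw : S_SUBW := Pool.Agent.W451.MF.t_SUBW
  have hpa : S_PA := Pool.Agent.W451.MF.t_PA hW hpat hsubw
  have hw1 : S_W1 := Pool.Agent.W155.MF.t_W1 hW hpat hsubw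
  have hw2 : S_W2 := Pool.Agent.W304.MF.t_W2 hW hpat hsubw
  have hsimp : S_SIMP := Pool.Agent.W369.MF.t_SIMP hpinf hs7
  have hborder : S_BORDER := Pool.Agent.W369.MF.t_BORDER hpinf hsimp hb7
  have hosc : S_OSC := Pool.Agent.W356.MF.t_OSC hcnt hpin hap hnf hcode hpinf hapc hpat
  have hpins : S_PINS :=
    t_PINS hcnt hpin hap hnf hcode hpinf hapc hborder hosc hswap hwords
  have hstr : S_STR := Pool.Agent.W585.MF.t_STR hafp hes htip
  exact main' hstr hpins htopin hpa hw1 hw2 hsym c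

/-- * For every `c` there is a length `L` such that every simple permutation of length at least `L`
contains a permutation of length at most `L` whose principal Möbius function is larger than `c` in
absolute value.
* Consequently for every `c` there is `L` such that for every hereditary class `C` on whose members
of lengths `1, ..., L` the principal Möbius function is bounded by `c`, all simple permutations of
`C` have lengths smaller than `L`.
* In particular the principal Möbius function is unbounded on every hereditary class that contains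
infinitely many simple permutations (the answer to Q2). -/
theorem result :
    (∀ c : ℤ, ∃ L : ℕ, ∀ (n : ℕ) (σ : Equiv.Perm (Fin n)), L ≤ n → IsSimple σ →
      ∃ (k : ℕ) (π : Equiv.Perm (Fin k)), 1 ≤ k ∧ k ≤ L ∧ Contained π σ ∧ c < |mu k π|) ∧
    (∀ c : ℤ, ∃ L : ℕ, ∀ C : ∀ n : ℕ, Equiv.Perm (Fin n) → Prop,
      (∀ (k n : ℕ) (σ : Equiv.Perm (Fin k)) (π : Equiv.Perm (Fin n)),
        Contained σ π → C n π → C k σ) →
      (∀ (k : ℕ) (π : Equiv.Perm (Fin k)), 1 ≤ k → k ≤ L → C k π → |mu k π| ≤ c) →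
      ∀ (n : ℕ) (σ : Equiv.Perm (Fin n)), C n σ → IsSimple σ → n < L) ∧
    (∀ C : ∀ n : ℕ, Equiv.Perm (Fin n) → Prop,
      (∀ (k n : ℕ) (σ : Equiv.Perm (Fin k)) (π : Equiv.Perm (Fin n)),
        Contained σ π → C n π → C k σ) →
      {p : Σ n : ℕ, Equiv.Perm (Fin n) | C p.1 p.2 ∧ IsSimple p.2}.Infinite →
      ∀ c : ℤ, ∃ (n : ℕ) (π : Equiv.Perm (Fin n)), 1 ≤ n ∧ C n π ∧ c < |mu n π|) := by
  refine ⟨witness, fun c => ?_, fun C hC hinf c => ?_⟩
  · obtain ⟨L, hL⟩ := witness c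
    refine ⟨L, fun C hC hb n σ hσ hs => ?_⟩
    by_contra hn
    obtain ⟨k, π, hk1, hk2, hπ, hmu⟩ := hL n σ (not_lt.1 hn) hs
    exact absurd (hb k π hk1 hk2 (hC k n π σ hπ hσ)) (not_le.2 hmu)
  · obtain ⟨L, hL⟩ := witness c
    obtain ⟨⟨n, σ⟩, ⟨hσ, hs⟩, hn⟩ : ∃ p ∈ {p : Σ n : ℕ, Equiv.Perm (Fin n) |
        C p.1 p.2 ∧ IsSimple p.2}, L ≤ p.1 := by
      by_contra hc
      push Not at hc
      exact hinf ((finite_lt L).subset (fun p hp => hc p hp))
    obtain ⟨k, π, hk1, _, hπ, hmu⟩ := hL n σ hn hs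
    exact ⟨k, π, hk1, hC k n π σ hπ hσ, hmu⟩

end Pool.Agent.Results.MP_080fe7_co.UniformWitness
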